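import Pool.Agent.H.MP_f7be6d_mp.A

open MeasureTheory Set Filter

namespace Pool.Agent.Results.MP_f7be6d_mp.Weak

abbrev E := EuclideanSpace ℝ (Fin 3)

variable {k : ℕ}

/-- Potential of the nuclei. -/
noncomputable def V (z : Fin k → ℝ) (R : Fin k → E) (x : E) : ℝ := ∑ j, z j / ‖x - R j‖

/-- Repulsion of the nuclei. -/
noncomputable def U (z : Fin k → ℝ) (R : Fin k → E) : ℝ :=
  ∑ i, ∑ j, if i < j then z i * z j / ‖R i - R j‖ else 0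

/-- Coulomb self-energy `D(ρ,ρ)`. -/
noncomputable def D (ρ : E → ℝ) : ℝ := 1 / 2 * ∫ q : E × E, ρ q.1 * ρ q.2 / ‖q.1 - q.2‖

/-- Normalised smooth compactly supported one-electron states with spin. -/
def State (ψ : Fin 2 → E → ℂ) : Prop :=
  (∀ σ, ContDiff ℝ (⊤ : ℕ∞) (ψ σ) ∧ HasCompactSupport (ψ σ)) ∧ ∑ σ, ∫ x, ‖ψ σ x‖ ^ 2 = 1

/-- Energy density `|∇f|² - V |f|²`. -/
noncomputable def dens (z : Fin k → ℝ) (R : Fin k → E) (f : E → ℂ) (x : E) : ℝ :=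
  ∑ i, ‖fderiv ℝ f x (EuclideanSpace.single i 1)‖ ^ 2 - V z R x * ‖f x‖ ^ 2

/-- Values of the quadratic form of `H₁ = -Δ - V + U` on normalised states. -/
def SQ (z : Fin k → ℝ) (R : Fin k → E) : Set ℝ :=
  {e | ∃ ψ, State ψ ∧ e = (∑ σ, ∫ x, dens z R (ψ σ) x) + U z R}

/-- Thomas-Fermi densities. -/
def Adm (ρ : E → ℝ) : Prop :=
  Measurable ρ ∧ (∀ x, 0 ≤ ρ x) ∧ Integrable ρ ∧ MemLp ρ (ENNReal.ofReal (5 / 3))

/-- Values of the Thomas-Fermi functional on densities of mass at most `N`. -/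
def STF (N : ℝ) (z : Fin k → ℝ) (R : Fin k → E) : Set ℝ :=
  {e | ∃ ρ, Adm ρ ∧ ∫ x, ρ x ≤ N ∧ e = 3 / 5 * (3 * Real.pi ^ 2) ^ (2 / 3 : ℝ) *
    (∫ x, ρ x ^ (5 / 3 : ℝ)) - (∫ x, V z R x * ρ x) + D ρ + U z R}

open Pool.Agent.H.MP_8b3296_mp Pool.Agent.H.MP_f7be6d_mp in
theorem result (k : ℕ) (hk : 1 ≤ k) : ∃ Z₀ : ℝ, 0 < Z₀ ∧ ∀ (z : Fin k → ℝ) (R : Fin k → E),
    (∀ j, 0 < z j) → Function.Injective R → ∑ j, z j ≤ Z₀ →
    (∀ ψ, State ψ → ∀ σ, Integrable (dens z R (ψ σ))) ∧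
    (∀ ρ, Adm ρ → Integrable (fun x => ρ x ^ (5 / 3 : ℝ)) ∧ Integrable (fun x => V z R x * ρ x) ∧
      Integrable (fun q : E × E => ρ q.1 * ρ q.2 / ‖q.1 - q.2‖)) ∧
    (SQ z R).Nonempty ∧ BddBelow (SQ z R) ∧ (STF 1 z R).Nonempty ∧ BddBelow (STF 1 z R) ∧
    sInf (SQ z R) < sInf (STF 1 z R) := by
  obtain ⟨c, hc, H⟩ := trial
  have hk0 : (0 : ℝ) < k := by exact_mod_cast hk
  obtain ⟨r, hr'⟩ : ∃ r : ℝ, r = 2 * k ^ 2 / c := ⟨_, rfl⟩
  have hr : 0 < r := by rw [hr']; positivity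
  obtain ⟨B, hB'⟩ : ∃ B, B = ∫ x, hh r x := ⟨_, rfl⟩
  have hB : 0 ≤ B := hB' ▸ integral_nonneg (hh_nonneg r)
  refine ⟨(1 / r / (B + 1)) ^ 2, by positivity, fun z R hz _ hZ => ?_⟩
  have : Nonempty (Fin k) := ⟨⟨0, hk⟩⟩
  have hZ0 : 0 < ∑ j, z j := Finset.sum_pos (fun j _ => hz j) Finset.univ_nonempty
  obtain ⟨K, hK⟩ := cx (R := R) hz
  have tf : ∀ ρ, Adm ρ → TF ρ := fun ρ ⟨a, b, c, d⟩ => ⟨a, b, c, by
    have := d.integrable_norm_rpow (by simp) ENNReal.ofReal_ne_top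
    simpa only [ENNReal.toReal_ofReal (show (0 : ℝ) ≤ 5 / 3 by norm_num),
      Real.norm_of_nonneg (b _)] using this⟩
  have c1 : ∀ f : E → ℂ, ContDiff ℝ (⊤ : ℕ∞) f → ContDiff ℝ 1 f := fun f h =>
    h.of_le (by exact_mod_cast le_top)
  have h1 : ∀ e ∈ STF 1 z R, U z R - ((∑ j, z j) ^ (5 / 2 : ℝ) * B + (∑ j, z j) ^ 2 / r) ≤ e := by
    rintro e ⟨ρ, h, -, rfl⟩
    have h2 := (tf ρ h).bV (R := R) hz hZ0 hr
    have h3 : (1 : ℝ) ≤ (3 * Real.pi ^ 2) ^ (2 / 3 : ℝ) :=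
      Real.one_le_rpow (by nlinarith [Real.pi_gt_three]) (by norm_num)
    have h4 : 0 ≤ ∫ x, ρ x ^ (5 / 3 : ℝ) := integral_nonneg fun x => Real.rpow_nonneg (h.2.1 x) _
    rw [← hB'] at h2
    change (∫ x, V z R x * ρ x) ≤ _ + D ρ + _ at h2
    nlinarith [mul_le_mul_of_nonneg_right h3 h4]
  have h2 : ∀ e ∈ SQ z R, U z R - K ≤ e := by
    rintro e ⟨ψ, h, rfl⟩
    have h3 := Finset.sum_le_sum fun σ (_ : σ ∈ Finset.univ) => (hK _ (c1 _ (h.1 σ).1) (h.1 σ).2).2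
    rw [← Finset.mul_sum, h.2] at h3
    change _ ≤ ∑ σ, ∫ x, dens z R (ψ σ) x at h3
    linarith
  obtain ⟨j, -, hj⟩ := Finset.exists_max_image Finset.univ z Finset.univ_nonempty
  obtain ⟨u, u1, u2, u3, u4⟩ := H (z j) (hz j) (R j)
  have u5 : ContDiff ℝ (⊤ : ℕ∞) fun x => (u x : ℂ) := Complex.ofRealCLM.contDiff.comp u1
  have u6 : HasCompactSupport fun x => (u x : ℂ) := u2.comp_left (g := fun t : ℝ => (t : ℂ)) (by simp)
  have u7 : ContDiff ℝ 1 u := u1.of_le (by exact_mod_cast le_top)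
  have h3 : ∃ e ∈ SQ z R, e ≤ U z R - c * z j ^ 2 := by
    refine ⟨_, ⟨![fun x => (u x : ℂ), 0], ⟨?_, by simpa using u3⟩, rfl⟩, ?_⟩
    · intro σ
      fin_cases σ
      · exact ⟨u5, u6⟩
      · exact ⟨contDiff_const, HasCompactSupport.zero⟩
    · have e1 : ∀ x, dens z R (fun x => (u x : ℂ)) x = ‖gradient u x‖ ^ 2 - V z R x * u x ^ 2 := by
        intro x
        have := (Complex.ofRealCLM.hasFDerivAt.comp x (u7.differentiable one_ne_zero x).hasFDerivAt).fderiv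
        rw [dens, grad_sq, show (fun x => (u x : ℂ)) = Complex.ofRealCLM ∘ u from rfl, this]
        simp
      have hb := bump u7 u2 one_pos
      have h4 : z j * ∫ x, u x ^ 2 / ‖x - R j‖ ≤ ∫ x, V z R x * u x ^ 2 := by
        rw [← integral_const_mul]
        refine integral_mono ((hb.eW _).1.const_mul _) hb.iV fun x => ?_
        simp only
        rw [mul_div_assoc', mul_div_right_comm]
        exact mul_le_mul_of_nonneg_right (Finset.single_le_sum (f := fun j => z j / ‖x - R j‖)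
          (fun i _ => div_nonneg (hz i).le (norm_nonneg _)) (Finset.mem_univ j)) (sq_nonneg _)
      have h5 := integral_sub hb.g2.norm.integrable_sq (hb.iV (z := z) (R := R))
      change ∫ x, ‖gradient u x‖ ^ 2 - V z R x * u x ^ 2 = _ - ∫ x, V z R x * u x ^ 2 at h5
      simp only [Fin.sum_univ_two, Matrix.cons_val_zero, Matrix.cons_val_one, e1, h5]
      have : ∫ x, dens z R 0 x = 0 := by simp [dens]
      linarith
  have h4 : (STF 1 z R).Nonempty := ⟨_, fun _ => 0, ⟨measurable_const, fun _ => le_rfl,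
    integrable_zero _ _ _, MemLp.zero⟩, by simp, rfl⟩
  obtain ⟨e, he, he'⟩ := h3
  refine ⟨fun ψ h σ => (hK _ (c1 _ (h.1 σ).1) (h.1 σ).2).1,
    fun ρ h => ⟨(tf ρ h).j, (tf ρ h).iV, (tf ρ h).iD⟩, ⟨e, he⟩, ⟨_, h2⟩, h4, ⟨_, h1⟩,
    (csInf_le ⟨_, h2⟩ he).trans_lt (he'.trans_lt (lt_of_lt_of_le ?_ (le_csInf h4 h1)))⟩
  have h5 : ∑ j, z j ≤ k * z j := by
    simpa using Finset.sum_le_card_nsmul Finset.univ z (z j) hj
  have h6 : (∑ j, z j) ^ (5 / 2 : ℝ) = (∑ j, z j) ^ 2 * √(∑ j, z j) := by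
    rw [show (5 / 2 : ℝ) = (2 : ℕ) + 1 / 2 by norm_num, Real.rpow_add hZ0, Real.rpow_natCast,
      Real.sqrt_eq_rpow]
  have h7 : √(∑ j, z j) * B < 1 / r := by
    refine (mul_le_mul_of_nonneg_right (Real.sqrt_le_iff.2 ⟨by positivity, hZ⟩) hB).trans_lt ?_
    rw [div_mul_eq_mul_div, div_lt_iff₀ (by positivity)]
    exact mul_lt_mul_of_pos_left (lt_add_one B) (by positivity)
  have h8 : (∑ j, z j) ^ 2 * (2 / r) ≤ c * z j ^ 2 := by
    refine (mul_le_mul_of_nonneg_right (pow_le_pow_left₀ hZ0.le h5 2) (by positivity)).trans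
      (le_of_eq ?_)
    rw [hr']
    field_simp
  have h9 := mul_lt_mul_of_pos_left h7 (show 0 < (∑ j, z j) ^ 2 by positivity)
  rw [h6]
  have e2 : (∑ j, z j) ^ 2 * (2 / r) = (∑ j, z j) ^ 2 * (1 / r) + (∑ j, z j) ^ 2 / r := by ring
  linarith

end Pool.Agent.Results.MP_f7be6d_mp.Weak
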